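import Mathlib
import Pool.Agent.Results.MP_696765_co.IrreducibleUnbounded

namespace Pool.Agent.Results.MP_2f2576_co.NoLonelyColourUnbounded

open Pool.Agent.Results.MP_696765_co.IrreducibleUnbounded

/-- Condition (i): every vertex meets at most two edges of each colour. -/
def AtMostTwoPerColour {V C : Type} (X : SimpleGraph V) (c : Sym2 V → C) : Prop :=
  ∀ (v : V) (k : C), {e : Sym2 V | e ∈ X.edgeSet ∧ v ∈ e ∧ c e = k}.encard ≤ 2

/-- Conditions (i) and (ii): in every circuit, two different edges have the same colour. -/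
def NoPiedCircuit {V : Type} (X : SimpleGraph V) : Prop :=
  ∃ (C : Type) (c : Sym2 V → C), AtMostTwoPerColour X c ∧
    ∀ (v : V) (p : X.Walk v v), p.IsCycle → ∃ e ∈ p.edges, ∃ f ∈ p.edges, f ≠ e ∧ c f = c e

/-- Conditions (i) and (iii): in every circuit, each edge has the same colour as some other
edge of that circuit. -/
def NoLonelyColour {V : Type} (X : SimpleGraph V) : Prop :=
  ∃ (C : Type) (c : Sym2 V → C), AtMostTwoPerColour X c ∧
    ∀ (v : V) (p : X.Walk v v), p.IsCycle → ∀ e ∈ p.edges, ∃ f ∈ p.edges, f ≠ e ∧ c f = c e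

theorem NoLonelyColour.noPiedCircuit {V : Type} {X : SimpleGraph V} (h : NoLonelyColour X) :
    NoPiedCircuit X := by
  obtain ⟨C, c, h1, h2⟩ := h
  refine ⟨C, c, h1, fun v p hp => ?_⟩
  have hne : p.edges ≠ [] := by
    intro h0
    have := hp.three_le_length
    rw [← SimpleGraph.Walk.length_edges, h0] at this
    simp at this
  obtain ⟨e, he⟩ := List.exists_mem_of_ne_nil _ hne
  exact ⟨e, he, h2 v p hp e he⟩

/-- A function constant along all steps of a trail except one takes equal values at the two
ends of this step when the trail is closed. -/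
theorem jump {V α : Type} {X : SimpleGraph V} (f : V → α) (x y : V) {u v : V} (p : X.Walk u v)
    (hp : p.IsTrail) (hxy : s(x, y) ∈ p.edges)
    (hf : ∀ a b, s(a, b) ∈ p.edges → s(a, b) ≠ s(x, y) → f a = f b) :
    (f u = f x ∧ f y = f v) ∨ (f u = f y ∧ f x = f v) := by
  have hconst : ∀ {a b : V} (q : X.Walk a b),
      (∀ c d, s(c, d) ∈ q.edges → f c = f d) → f a = f b := by
    intro a b q
    induction q with
    | nil => intro _; rfl
    | @cons a w b h q ih =>
      intro hq
      rw [hq a w (by simp), ih fun c d hcd => hq c d (by simp [hcd])]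
  induction p with
  | nil => simp at hxy
  | @cons u w v h q ih =>
    have hq : q.IsTrail := (SimpleGraph.Walk.isTrail_cons h q).1 hp |>.1
    have hnot : s(u, w) ∉ q.edges := (SimpleGraph.Walk.isTrail_cons h q).1 hp |>.2
    by_cases he : s(u, w) = s(x, y)
    · have hqc : f w = f v := by
        apply hconst q
        intro c d hcd
        apply hf c d (by simp [hcd])
        rintro h0
        rw [h0, ← he] at hcd
        exact hnot hcd
      rcases Sym2.eq_iff.1 he with ⟨rfl, rfl⟩ | ⟨rfl, rfl⟩
      · exact Or.inl ⟨rfl, hqc⟩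
      · exact Or.inr ⟨rfl, hqc⟩
    · have h1 : f u = f w := hf _ _ (by simp) he
      have h2 : s(x, y) ∈ q.edges := by
        rw [SimpleGraph.Walk.edges_cons, List.mem_cons] at hxy
        rcases hxy with h0 | h0
        · exact absurd h0.symm he
        · exact h0
      rw [h1]
      exact ih hq h2 fun a b hab => hf a b (by simp [hab])

theorem not_mem_closure {G : Type} [Group G] {H : Set G} (hH : IsIrreducibleGeneratingSet H)
    {k : G} (hk : k ∈ H) : k ∉ Subgroup.closure (H \ {k}) := by
  intro hmem
  apply hH.2 k hk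
  rw [eq_top_iff, ← hH.1, Subgroup.closure_le]
  intro x hx
  by_cases hxk : x = k
  · rw [hxk]; exact hmem
  · exact Subgroup.subset_closure ⟨hx, hxk⟩

/-- The colour of an edge of a Cayley graph: the generator it comes from. -/
noncomputable def col {G : Type} [Group G] (H : Set G) (e : Sym2 G) : G := by
  classical
  exact if h : ∃ k ∈ H, ∃ g, e = s(g, k * g) then h.choose else 1

theorem exists_gen {G : Type} [Group G] {H : Set G} {x y : G}
    (h : (CayleyGraph H).Adj x y) : ∃ k ∈ H, ∃ g, s(x, y) = s(g, k * g) := by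
  obtain ⟨-, k, hk, h | h⟩ := h
  · exact ⟨k, hk, x, by rw [h]⟩
  · exact ⟨k, hk, y, by rw [Sym2.eq_swap, h]⟩

theorem col_spec {G : Type} [Group G] {H : Set G} {e : Sym2 G}
    (h : ∃ k ∈ H, ∃ g, e = s(g, k * g)) : col H e ∈ H ∧ ∃ g, e = s(g, col H e * g) := by
  classical
  unfold col
  rw [dif_pos h]
  exact h.choose_spec

theorem noLonelyColour_cayley {G : Type} [Group G] {H : Set G}
    (hH : IsIrreducibleGeneratingSet H) : NoLonelyColour (CayleyGraph H) := by
  classical
  refine ⟨G, col H, ?_, ?_⟩
  · intro v k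
    have hsub : {e : Sym2 G | e ∈ (CayleyGraph H).edgeSet ∧ v ∈ e ∧ col H e = k} ⊆
        {s(v, k * v), s(k⁻¹ * v, v)} := by
      rintro e ⟨he, hv, hk⟩
      induction e using Sym2.ind with
      | h x y =>
        obtain ⟨-, g, hg⟩ := col_spec (exists_gen (SimpleGraph.mem_edgeSet _ |>.1 he))
        rw [hk] at hg
        rw [hg] at hv ⊢
        rcases Sym2.mem_iff.1 hv with rfl | rfl
        · exact Or.inl rfl
        · right
          simp
    refine (Set.encard_le_encard hsub).trans ?_
    exact (Set.encard_insert_le _ _).trans (by rw [Set.encard_singleton]; norm_num)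
  · intro v p hp e he
    by_contra hcon
    push Not at hcon
    have hadj : e ∈ (CayleyGraph H).edgeSet := p.edges_subset_edgeSet he
    induction e using Sym2.ind with
    | h x y =>
      obtain ⟨hkH, g, hg⟩ := col_spec (exists_gen (SimpleGraph.mem_edgeSet _ |>.1 hadj))
      set k := col H s(x, y) with hk
      let K : Subgroup G := Subgroup.closure (H \ {k})
      let f : G → G ⧸ K := fun g => ((g⁻¹ : G) : G ⧸ K)
      have hstep : ∀ a b, s(a, b) ∈ p.edges → s(a, b) ≠ s(x, y) → f a = f b := by
        intro a b hab hne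
        have hc : col H s(a, b) ≠ k := hcon _ hab hne
        obtain ⟨h1, g', hg'⟩ := col_spec (exists_gen (SimpleGraph.mem_edgeSet _ |>.1
          (p.edges_subset_edgeSet hab)))
        set k' := col H s(a, b)
        have hk' : k' ∈ K := Subgroup.subset_closure ⟨h1, hc⟩
        have hf : f (k' * g') = f g' := by
          show (((k' * g')⁻¹ : G) : G ⧸ K) = ((g'⁻¹ : G) : G ⧸ K)
          rw [QuotientGroup.eq]
          simpa using hk'
        rcases Sym2.eq_iff.1 hg' with ⟨e1, e2⟩ | ⟨e1, e2⟩
        · rw [e1, e2]; exact hf.symm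
        · rw [e1, e2]; exact hf
      have hxy : f x = f y := by
        rcases jump f x y p hp.isTrail he hstep with ⟨h1, h2⟩ | ⟨h1, h2⟩
        · rw [← h1, h2]
        · rw [h2, ← h1]
      have hgk : f g = f (k * g) := by
        rcases Sym2.eq_iff.1 hg with ⟨e1, e2⟩ | ⟨e1, e2⟩
        · calc f g = f x := by rw [e1]
            _ = f y := hxy
            _ = f (k * g) := by rw [e2]
        · calc f g = f y := by rw [e2]
            _ = f x := hxy.symm
            _ = f (k * g) := by rw [e1]
      have hkK : k ∈ K := by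
        have h3 : (((k * g)⁻¹ : G) : G ⧸ K) = ((g⁻¹ : G) : G ⧸ K) := hgk.symm
        rw [QuotientGroup.eq] at h3
        simpa using h3
      exact not_mem_closure hH hkH hkK

/-- For every `m` there is a finite no lonely colour graph (in particular a no pied circuit
graph) of chromatic number larger than `m`. -/
theorem result : ∀ m : ℕ, ∃ (V : Type) (_ : Finite V) (X : SimpleGraph V),
    NoLonelyColour X ∧ NoPiedCircuit X ∧ (m : ℕ∞) < X.chromaticNumber := by
  intro m
  obtain ⟨G, i1, i2, H, -, hH, hm⟩ :=
    Pool.Agent.Results.MP_696765_co.IrreducibleUnbounded.result m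
  exact ⟨G, i2, CayleyGraph H, noLonelyColour_cayley hH,
    (noLonelyColour_cayley hH).noPiedCircuit, hm⟩

end Pool.Agent.Results.MP_2f2576_co.NoLonelyColourUnbounded
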